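import Mathlib
import Pool.Agent.H485R3.Match

/-!
# Tate classes in the cohomology of a simple abelian variety: definitions
-/

namespace Run7.h16.OE

open Module Pool.Agent.H485R3

/-- All Tate classes of all codimensions `d`, over all finite extensions, in the exterior powers of
the dual of `V` are combinations of products of pairings. Here `V` has a basis of eigenvectors of the
Frobenius `F` with eigenvalues `σ(π)`, where `σ` runs through the embeddings of `K` in `Ω`. -/
def OwnTateClassesGenerate (Ω : Type) [Field Ω] (p m : ℕ) {K : Type} [Field K] (π : K) : Prop :=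
  ∀ (V : Type) [AddCommGroup V] [Module Ω V] (b : Basis (K →+* Ω) Ω V) (F : V →ₗ[Ω] V),
    (∀ σ, F (b σ) = σ π • b σ) → ∀ (d s : ℕ), 0 < s → ∀ φ : V [⋀^Fin (2 * d)]→ₗ[Ω] Ω,
      (∀ v, φ (fun k => (F ^ s) (v k)) = (((p : Ω) ^ m) ^ d) ^ s * φ v) →
        φ.toMultilinearMap ∈ Submodule.span Ω
          {ψ | IsProductOfPairings (fun _ : Unit => V) (fun _ => F) (fun _ => (p : Ω) ^ m)
            (fun _ => ()) ψ}

/-- No positive power of the norm of `π` to an imaginary quadratic subfield `T` of odd index is a
rational number. -/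
def NoRationalNorms {K : Type} [Field K] [NumberField K] (π : K) : Prop :=
  ∀ T : IntermediateField ℚ K, finrank ℚ T = 2 → ¬ NumberField.IsTotallyReal T →
    Odd (finrank T K) → ∀ n : ℕ, 0 < n → ∀ q : ℚ, algebraMap ℚ T q ≠ Algebra.norm T π ^ n

end Run7.h16.OE
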